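import Pool.Agent.Helper56.NL.Stm

set_option autoImplicit false

namespace Pool.Agent.Helper76.NL

open Pool.Agent.Helper35.EM Pool.Agent.Helper56.SA Pool.Agent.Helper56.NL MvPolynomial

theorem g_pos (D : ℕ) : ∀ n, 0 < g D n
  | 0 => Nat.one_pos
  | n + 1 => Nat.mul_pos (g_pos D n) (Nat.pow_pos (Nat.succ_pos D))

theorem g_lt (D k : ℕ) : ∀ N, k < N → (D + 1) * g D k ≤ g D N := by
  intro N hN
  induction N, hN using Nat.le_induction with
  | base =>
    rw [g, mul_comm]
    refine Nat.mul_le_mul_left _ ?_
    calc D + 1 = (D + 1) ^ 1 := (pow_one _).symm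
      _ ≤ (D + 1) ^ (k + 1) := Nat.pow_le_pow_right (Nat.succ_pos D) (by omega)
  | succ n hn ih =>
    rw [g]
    exact ih.trans (Nat.le_mul_of_pos_right _ (Nat.pow_pos (Nat.succ_pos D)))

theorem low (D N : ℕ) (a : ℕ → ℕ) (h : ∑ k ∈ Finset.range N, a k ≤ D) :
    ∑ k ∈ Finset.range N, a k * g D k < g D N := by
  have h1 : (D + 1) * ∑ k ∈ Finset.range N, a k * g D k ≤ D * g D N := by
    rw [Finset.mul_sum]
    calc ∑ k ∈ Finset.range N, (D + 1) * (a k * g D k)
        ≤ ∑ k ∈ Finset.range N, a k * g D N := by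
          refine Finset.sum_le_sum fun k hk => ?_
          have := g_lt D k N (Finset.mem_range.1 hk)
          calc (D + 1) * (a k * g D k) = a k * ((D + 1) * g D k) := by ring
            _ ≤ a k * g D N := Nat.mul_le_mul_left _ this
      _ = (∑ k ∈ Finset.range N, a k) * g D N := by rw [Finset.sum_mul]
      _ ≤ D * g D N := Nat.mul_le_mul_right _ h
  have h2 := g_pos D N
  by_contra h3
  push Not at h3
  nlinarith

theorem inj (D : ℕ) : ∀ (N : ℕ) (a b : ℕ → ℕ), ∑ k ∈ Finset.range N, a k ≤ D →
    ∑ k ∈ Finset.range N, b k ≤ D →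
    ∑ k ∈ Finset.range N, a k * g D k = ∑ k ∈ Finset.range N, b k * g D k →
    ∀ k < N, a k = b k := by
  intro N
  induction N with
  | zero => intro a b _ _ _ k hk; omega
  | succ N ih =>
    intro a b ha hb h k hk
    rw [Finset.sum_range_succ] at ha hb h
    rw [Finset.sum_range_succ] at h
    have ha' : ∑ k ∈ Finset.range N, a k ≤ D := by omega
    have hb' : ∑ k ∈ Finset.range N, b k ≤ D := by omega
    have la := low D N a ha'
    have lb := low D N b hb'
    have hN := g_pos D N
    have hq : a N = b N := by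
      have e1 := congrArg (· / g D N) h
      simp only [Nat.add_mul_div_right _ _ hN, Nat.div_eq_of_lt la, Nat.div_eq_of_lt lb,
        Nat.zero_add] at e1
      exact e1
    rw [hq] at h
    rcases Nat.lt_succ_iff_lt_or_eq.1 hk with h1 | rfl
    · exact ih a b ha' hb' (by omega) k h1
    · exact hq

/-- the weight of an exponent -/
def wt (D : ℕ) (e : ℕ →₀ ℕ) : ℕ := e.sum fun k m => m * g D k

theorem wt_inj (D : ℕ) (a b : ℕ →₀ ℕ) (ha : (a.sum fun _ m => m) ≤ D)
    (hb : (b.sum fun _ m => m) ≤ D) (h : wt D a = wt D b) : a = b := by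
  obtain ⟨N, hN⟩ : ∃ N, a.support ∪ b.support ⊆ Finset.range N :=
    ⟨(a.support ∪ b.support).sup id + 1, fun x hx =>
      Finset.mem_range.2 (Nat.lt_succ_of_le (Finset.le_sup (f := id) hx))⟩
  have hNa := Finset.union_subset_left hN
  have hNb := Finset.union_subset_right hN
  rw [wt, wt, Finsupp.sum_of_support_subset _ hNa _ (by simp),
    Finsupp.sum_of_support_subset _ hNb _ (by simp)] at h
  rw [Finsupp.sum_of_support_subset _ hNa _ (by simp)] at ha
  rw [Finsupp.sum_of_support_subset _ hNb _ (by simp)] at hb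
  ext k
  by_cases hk : k < N
  · exact inj D N a b ha hb h k hk
  · rw [Finsupp.notMem_support_iff.1 (fun h' => hk (Finset.mem_range.1 (hNa h'))),
      Finsupp.notMem_support_iff.1 (fun h' => hk (Finset.mem_range.1 (hNb h')))]

/-- the substitution of powers -/
theorem sub_ne {K : Type*} [Field K] (D : ℕ) (F : MvPolynomial ℕ K) (hF : F ≠ 0)
    (hD : F.totalDegree ≤ D) :
    aeval (fun k => (Polynomial.X : Polynomial K) ^ g D k) F ≠ 0 := by
  obtain ⟨m, hm⟩ := MvPolynomial.support_nonempty.2 hF
  intro h0
  have h1 : aeval (fun k => (Polynomial.X : Polynomial K) ^ g D k) F =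
      ∑ e ∈ F.support, Polynomial.C (F.coeff e) * Polynomial.X ^ wt D e := by
    rw [MvPolynomial.aeval_def, MvPolynomial.eval₂_eq]
    refine Finset.sum_congr rfl fun e _ => ?_
    rw [Polynomial.algebraMap_eq]
    congr 1
    rw [wt, Finsupp.sum, ← Finset.prod_pow_eq_pow_sum]
    refine Finset.prod_congr rfl fun k _ => ?_
    rw [← pow_mul, mul_comm]
  have h2 := congrArg (fun G => Polynomial.coeff G (wt D m)) (h1.symm.trans h0)
  simp only [Polynomial.finsetSum_coeff, Polynomial.coeff_C_mul, Polynomial.coeff_X_pow,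
    Polynomial.coeff_zero] at h2
  rw [Finset.sum_eq_single m] at h2
  · simp at h2
    exact MvPolynomial.mem_support_iff.1 hm h2
  · intro e he hne
    rw [if_neg, mul_zero]
    intro h3
    exact hne (wt_inj D e m ((MvPolynomial.le_totalDegree he).trans hD)
      ((MvPolynomial.le_totalDegree hm).trans hD) h3.symm)
  · intro h3
    exact absurd hm h3

theorem totalDegree_lin {K : Type*} [Field K] {n : ℕ} (v : Fin n → MvPolynomial ℕ K)
    (hv : ∀ i, (v i).totalDegree ≤ 1) (f : MvPolynomial (Fin n) K) :
    (aeval v f).totalDegree ≤ f.totalDegree := by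
  rw [MvPolynomial.aeval_def, MvPolynomial.eval₂_eq]
  refine MvPolynomial.totalDegree_finsetSum_le fun e he => ?_
  refine (MvPolynomial.totalDegree_mul _ _).trans ?_
  rw [MvPolynomial.algebraMap_eq, MvPolynomial.totalDegree_C, Nat.zero_add]
  refine (MvPolynomial.totalDegree_finsetProd _ _).trans ?_
  refine le_trans ?_ (MvPolynomial.le_totalDegree he)
  refine Finset.sum_le_sum fun i _ => ?_
  refine (MvPolynomial.totalDegree_pow _ _).trans ?_
  calc e i * (v i).totalDegree ≤ e i * 1 := Nat.mul_le_mul_left _ (hv i)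
    _ = e i := mul_one _

/-- the linear form with given coefficients -/
noncomputable def lin (K σ : Type*) [Field K] : (σ →₀ K) →ₗ[K] MvPolynomial σ K :=
  Finsupp.linearCombination K X

theorem totalDegree_lin_le {K : Type*} [Field K] (c : ℕ →₀ K) :
    (lin K ℕ c).totalDegree ≤ 1 := by
  rw [lin, Finsupp.linearCombination_apply, Finsupp.sum]
  refine MvPolynomial.totalDegree_finsetSum_le fun e he => ?_
  refine (MvPolynomial.totalDegree_smul_le _ _).trans ?_
  rw [MvPolynomial.totalDegree_X]

theorem lin_inj {K : Type*} [Field K] {n : ℕ} (c : Fin n → (ℕ →₀ K))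
    (hc : LinearIndependent K c) :
    Function.Injective (aeval (fun i => lin K ℕ (c i)) :
      MvPolynomial (Fin n) K →ₐ[K] MvPolynomial ℕ K) := by
  obtain ⟨L, hL⟩ := LinearMap.exists_leftInverse_of_injective
    (Finsupp.linearCombination K c) (LinearMap.ker_eq_bot.2 hc)
  have hL' : ∀ i, L (c i) = Finsupp.single i 1 := by
    intro i
    have := LinearMap.congr_fun hL (Finsupp.single i 1)
    simpa using this
  let Ψ : MvPolynomial ℕ K →ₐ[K] MvPolynomial (Fin n) K :=
    aeval (fun k => lin K (Fin n) (L (Finsupp.single k 1)))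
  have h1 : ∀ w : ℕ →₀ K, Ψ (lin K ℕ w) = lin K (Fin n) (L w) := by
    intro w
    have : Ψ.toLinearMap ∘ₗ lin K ℕ = lin K (Fin n) ∘ₗ L := by
      refine Finsupp.lhom_ext fun k a => ?_
      have e : (Finsupp.single k a : ℕ →₀ K) = a • Finsupp.single k 1 := by simp
      simp only [LinearMap.comp_apply, AlgHom.toLinearMap_apply]
      rw [e, map_smul, map_smul, map_smul, map_smul]
      congr 1
      simp [lin, Ψ]
    exact LinearMap.congr_fun this w
  have h2 : ∀ f, Ψ (aeval (fun i => lin K ℕ (c i)) f) = f := by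
    intro f
    have : Ψ.comp (aeval (fun i => lin K ℕ (c i))) = AlgHom.id K (MvPolynomial (Fin n) K) := by
      refine MvPolynomial.algHom_ext fun i => ?_
      simp only [AlgHom.comp_apply, MvPolynomial.aeval_X, AlgHom.id_apply]
      rw [h1, hL']
      simp [lin]
    exact AlgHom.congr_fun this f
  exact Function.LeftInverse.injective h2

theorem trans_kk {p : ℂ} (hp : p ∉ M.closure ∅) : Transcendental kk p := by
  intro h
  have hint : IsIntegral kk p := h.isIntegral
  have h1 := IsAlgClosed.degree_eq_one_of_irreducible kk (minpoly.irreducible hint)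
  have h2 := minpoly.mem_range_of_degree_eq_one kk p h1
  obtain ⟨x, hx⟩ := h2
  apply hp
  rw [← hx]
  exact kk_mem.1 x.2

theorem deg : S_DEG := by
  intro D p hp n u hu hind f hf hfD
  have h1 : ∀ i, ∃ c : ℕ →₀ kk,
      Finsupp.linearCombination kk (fun k => p ^ g D k) c = u i := by
    intro i
    have := hu i
    rw [Finsupp.mem_span_range_iff_exists_finsupp] at this
    obtain ⟨c, hc⟩ := this
    exact ⟨c, by rw [Finsupp.linearCombination_apply]; exact hc⟩
  choose c hc using h1
  have hcind : LinearIndependent kk c := by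
    refine LinearIndependent.of_comp (Finsupp.linearCombination kk (fun k => p ^ g D k)) ?_
    have : (Finsupp.linearCombination kk (fun k => p ^ g D k)) ∘ c = u := funext hc
    rw [this]
    exact hind
  let F : MvPolynomial ℕ kk := aeval (fun i => lin kk ℕ (c i)) f
  have hF : F ≠ 0 := by
    intro h0
    exact hf (lin_inj c hcind (h0.trans (map_zero _).symm))
  have hFD : F.totalDegree ≤ D :=
    (totalDegree_lin _ (fun i => totalDegree_lin_le (c i)) f).trans hfD
  have hG := sub_ne D F hF hFD
  have hval : aeval u f =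
      Polynomial.aeval p (aeval (fun k => (Polynomial.X : Polynomial kk) ^ g D k) F) := by
    have : (aeval u : MvPolynomial (Fin n) kk →ₐ[kk] ℂ) = ((Polynomial.aeval p).comp
        (aeval (fun k => (Polynomial.X : Polynomial kk) ^ g D k))).comp
          (aeval (fun i => lin kk ℕ (c i))) := by
      refine MvPolynomial.algHom_ext fun i => ?_
      simp only [AlgHom.comp_apply, MvPolynomial.aeval_X]
      rw [← hc i]
      have h2 : ((Polynomial.aeval p).comp (aeval (fun k => (Polynomial.X : Polynomial kk) ^ g D k))).toLinearMap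
          ∘ₗ lin kk ℕ = Finsupp.linearCombination kk (fun k => p ^ g D k) := by
        refine Finsupp.lhom_ext fun k a => ?_
        simp [lin]
      exact (LinearMap.congr_fun h2 (c i)).symm
    rw [this]
    rfl
  rw [hval]
  exact (transcendental_iff_injective.1 (trans_kk hp)).ne_iff' (map_zero _) |>.2 hG

end Pool.Agent.Helper76.NL
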